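import Mathlib
import Pool.Agent.U945.AP.Gen

/-!
# Additive relations and the four exponentials conjecture for rational numbers

The four exponentials conjecture for rational numbers says: if `t` is an irrational real number, then
the positive rational numbers `x` such that `x ^ t` is rational have multiplicative rank at most one.
The six exponentials theorem says that the rank is at most two, also with algebraic `x ^ t`.  We
describe the ADDITIVE relations between these numbers.

1. Let `t` be an irrational real number.  There is at most one rational number `x` in `(0, 1/2)` such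
   that `x ^ t` and `(1 - x) ^ t` are both algebraic -- unless `2 ^ t` and `3 ^ t` are algebraic, and
   then there are exactly three such `x`, namely `1/3`, `1/4` and `1/9`.  If `2 ^ t` is algebraic, then
   `x` is of the form `1 / 2 ^ k` or `1 / (2 ^ k + 1)`.

   In terms of matrices: if `x ≠ x'` are rational numbers in `(0, 1/2)`, not both in
   `{1/3, 1/4, 1/9}`, then a `2 × 4` matrix of rank one with first row
   `(log x, log (1 - x), log x', log (1 - x'))` and second row in the logarithms of positive algebraic
   numbers has `ℚ`-linearly dependent rows.  So a coprime triple `a + b = c` can be a source of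
   counterexamples to the conjecture (with first row `(log (a / c), log (b / c))`) with a given `t` only
   for ONE triple `a < b < c`, or else for the three triples `(1, 2, 3)`, `(1, 3, 4)`, `(1, 8, 9)`.

2. The same in the setting of the strong four exponentials conjecture: for a transcendental complex
   number `t` the set of the rational numbers `x` in `(0, 1/2)` such that `t log x` and `t log (1 - x)`
   are linear combinations with algebraic coefficients of `1` and of logarithms of algebraic numbers has
   at most one element or is `{1/3, 1/4, 1/9}`.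
-/

set_option autoImplicit false

namespace Pool.Agent.Results.MP_bbc1fa_nt.AdditivePairs

/-- The rational numbers `x` in `(0, 1/2)` such that `x ^ t` and `(1 - x) ^ t` are algebraic. -/
def Pairs (t : ℝ) : Set ℚ :=
  {x : ℚ | 0 < x ∧ x < 1 / 2 ∧ IsAlgebraic ℚ ((x : ℝ) ^ t) ∧ IsAlgebraic ℚ (((1 - x : ℚ) : ℝ) ^ t)}

/-- The linear combinations, with algebraic coefficients, of `1` and of logarithms of algebraic
numbers. -/
noncomputable def LogForms : Submodule (algebraicClosure ℚ ℂ) ℂ :=
  Submodule.span (algebraicClosure ℚ ℂ) ({1} ∪ {z : ℂ | IsAlgebraic ℚ (Complex.exp z)})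

/-- The rational numbers `x` in `(0, 1/2)` such that `t log x` and `t log (1 - x)` are in
`LogForms`. -/
def StrongPairs (t : ℂ) : Set ℚ :=
  {x : ℚ | 0 < x ∧ x < 1 / 2 ∧ t * ((Real.log (x : ℝ) : ℝ) : ℂ) ∈ LogForms ∧
    t * ((Real.log ((1 - x : ℚ) : ℝ) : ℝ) : ℂ) ∈ LogForms}

open Pool.Agent.U945.AP in
theorem pairs_eq (t : ℝ) : Pairs t = SP Pool.Agent.H301R2.SSE.Lg t := by
  ext x
  constructor
  · rintro ⟨h0, h1, h2, h3⟩
    exact ⟨h0, h1, (mem_iff t h0).2 h2, (mem_iff t (by linarith)).2 h3⟩
  · rintro ⟨h0, h1, h2, h3⟩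
    exact ⟨h0, h1, (mem_iff t h0).1 h2, (mem_iff t (by linarith)).1 h3⟩

open Pool.Agent.U945.AP in
/-- **Additive relations and the four exponentials conjecture for rational numbers.** -/
theorem result :
    (∀ t : ℝ, Irrational t →
      ((Pairs t).Subsingleton ∨ (IsAlgebraic ℚ ((2 : ℝ) ^ t) ∧ IsAlgebraic ℚ ((3 : ℝ) ^ t) ∧
        Pairs t = {1 / 3, 1 / 4, 1 / 9})) ∧
      (IsAlgebraic ℚ ((2 : ℝ) ^ t) → ∀ x ∈ Pairs t, ∃ k : ℕ, x = 1 / 2 ^ k ∨ x = 1 / (2 ^ k + 1))) ∧
    (∀ t : ℂ, Transcendental ℚ t →
      (StrongPairs t).Subsingleton ∨ StrongPairs t = {1 / 3, 1 / 4, 1 / 9}) := by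
  have e2 : (((2 : ℚ)) : ℝ) = 2 := by norm_num
  have e3 : (((3 : ℚ)) : ℝ) = 3 := by norm_num
  refine ⟨fun t ht => ⟨?_, fun h2 x hx => ?_⟩, fun t ht => ?_⟩
  · rw [pairs_eq]
    rcases dichotomy (V := Pool.Agent.H301R2.SSE.Lg) (t := (t : ℂ)) (dep_real ht) with h | ⟨h1, h2, h3⟩
    · exact Or.inl h
    · right
      refine ⟨?_, ?_, h3⟩
      · rw [← e2]
        exact (mem_iff t (by norm_num)).1 h1
      · rw [← e3]
        exact (mem_iff t (by norm_num)).1 h2
  · rw [pairs_eq] at hx
    obtain ⟨h0, h1, h3, h4⟩ := hx
    rw [← e2] at h2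
    exact with_two h0 h1 (dep_real ht x (1 - x) 2 h0 (by linarith) (by norm_num) h3 h4
      ((mem_iff t (by norm_num)).2 h2))
  · have e : StrongPairs t = SP (Pool.Agent.H301R2.SSE.Lt.restrictScalars ℚ) t := rfl
    rw [e]
    rcases dichotomy (V := Pool.Agent.H301R2.SSE.Lt.restrictScalars ℚ) (t := t)
      (fun x y z hx hy hz h1 h2 h3 => dep_of ht hx hy hz h1 h2 h3) with h | ⟨-, -, h3⟩
    · exact Or.inl h
    · exact Or.inr h3

end Pool.Agent.Results.MP_bbc1fa_nt.AdditivePairs
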