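import Mathlib
import Pool.Agent.U945.BR.Main

/-!
# The four exponentials conjecture for the terms of binary recurrences, with an absolute bound

The four exponentials conjecture for rational numbers says: if `t` is an irrational real number, then
the positive rational numbers `x` such that `x ^ t` is rational have multiplicative rank at most one.
The six exponentials theorem says that the rank is at most two, also with algebraic `x ^ t`, so that for
each `t` there can be infinitely many such `x`.  We show that there is ONE number `C` which bounds, for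
all irrational `t`, the number of them in all sets of the following kind.

1. The terms `u_n`, `n ≥ 0`, of any recurrence `u_(n+2) = (α + β) u_(n+1) - α β u_n` of rational
   numbers, nondegenerate: `α`, `β ≠ 0`, `α / β` is not a root of unity, and the sequence is not
   geometric.  (For instance the Fibonacci numbers, or the numbers `2 ^ n - 1`, or the numbers
   `c a ^ n + d b ^ n` with rational `a`, `b`, `c`, `d ≠ 0`, `a ≠ ± b`.)  So `|u_n| ^ t` is
   transcendental for all but at most `C` of the numbers `n` with `u_n ≠ 0`.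

2. More generally, all complex numbers of the form `c a ^ n + d b ^ n`, `n ∈ ℤ`, with arbitrary
   complex numbers `a`, `b`, `c`, `d ≠ 0`, `a / b` not a root of unity.

3. All complex numbers of the form `c a ^ n + d b ^ m`, `n`, `m ∈ ℤ`, with arbitrary complex numbers
   `a`, `b`, `c`, `d ≠ 0`, `a` and `b` multiplicatively independent.

4. All complex numbers of the form `c u + d v`, where `u` and `v` are elements of any group of rank at
   most `r`; here the bound is `C ^ (r + 1)`, and proportional pairs `(u, v)` are counted only once.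

The same is shown for the numbers `x` such that `t log x` is, for some determination of the logarithm, a
linear combination with algebraic coefficients of `1`, of logarithms of algebraic numbers and of `k`
given numbers, with the bounds `C ^ (k + 1)` and `C ^ (k + r + 1)`; `t` is then a transcendental number.
-/

set_option autoImplicit false

namespace Pool.Agent.Results.MP_bbc1fa_nt.BinaryRecurrences

/-- The linear combinations, with algebraic coefficients, of `1` and of logarithms of algebraic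
numbers. -/
noncomputable def LogForms : Submodule (algebraicClosure ℚ ℂ) ℂ :=
  Submodule.span (algebraicClosure ℚ ℂ) ({1} ∪ {z : ℂ | IsAlgebraic ℚ (Complex.exp z)})

/-- The algebraic numbers `x ≠ 0` with an algebraic power `x ^ t`, up to the sign: there is a complex
number `z` such that `exp z = x` or `exp z = -x`, and `exp z` and `exp (t z)` are algebraic. -/
def Powers (t : ℂ) : Set ℂ :=
  {x | ∃ z : ℂ, (Complex.exp z = x ∨ Complex.exp z = -x) ∧ IsAlgebraic ℚ (Complex.exp z) ∧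
    IsAlgebraic ℚ (Complex.exp (t * z))}

/-- The algebraic numbers `x ≠ 0` such that, for a logarithm `z` of `x` or of `-x`, `t z` is in
`LogForms + V`. -/
def StrongPowers (t : ℂ) (V : Submodule (algebraicClosure ℚ ℂ) ℂ) : Set ℂ :=
  {x | ∃ z : ℂ, (Complex.exp z = x ∨ Complex.exp z = -x) ∧ IsAlgebraic ℚ (Complex.exp z) ∧
    t * z ∈ LogForms ⊔ V}

/-- The division hull of the group generated by nonzero numbers `h 1, …, h r`: the numbers which have a
positive power in this group. -/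
def Hull {r : ℕ} (h : Fin r → ℂ) : Set ℂ :=
  {u | ∃ m : ℕ, 0 < m ∧ ∃ a : Fin r → ℤ, u ^ m = ∏ j, h j ^ a j}

/-- The indices `n` such that `c a ^ n + d b ^ n` is in `X`. -/
def Terms (a b c d : ℂ) (X : Set ℂ) : Set ℤ := {n | c * a ^ n + d * b ^ n ∈ X}

/-- The pairs of exponents `(n, m)` such that `c a ^ n + d b ^ m` is in `X`. -/
def Pairs (a b c d : ℂ) (X : Set ℂ) : Set (ℤ × ℤ) := {e | c * a ^ e.1 + d * b ^ e.2 ∈ X}

/-- The quotients `u / v` of nonzero elements `u`, `v` of the division hull of `h 1, …, h r` such that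
`c u + d v` is in `X`. -/
def Quotients {r : ℕ} (h : Fin r → ℂ) (c d : ℂ) (X : Set ℂ) : Set ℂ :=
  {e | ∃ u v : ℂ, u ≠ 0 ∧ v ≠ 0 ∧ u ∈ Hull h ∧ v ∈ Hull h ∧ c * u + d * v ∈ X ∧ u / v = e}

/-- `X` has at most `B` elements. -/
def AtMost {α : Type} (X : Set α) (B : ℕ) : Prop := X.Finite ∧ X.ncard ≤ B

/-- the closed form of a recurrence -/
theorem closed_form {α β : ℂ} (hab : α ≠ β) {u : ℕ → ℂ}
    (hu : ∀ n, u (n + 2) = (α + β) * u (n + 1) - α * β * u n) (n : ℕ) :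
    u n = (u 1 - β * u 0) / (α - β) * α ^ n + (α * u 0 - u 1) / (α - β) * β ^ n := by
  have h : α - β ≠ 0 := sub_ne_zero.2 hab
  induction n using Nat.strong_induction_on with
  | _ n ih =>
    match n, ih with
    | 0, _ =>
      rw [pow_zero, pow_zero]
      field_simp
      ring
    | 1, _ =>
      rw [pow_one, pow_one]
      field_simp
      ring
    | n + 2, ih =>
      rw [hu n, ih n (by omega), ih (n + 1) (by omega)]
      field_simp
      ring

/-- a rational number `x ≠ 0` with `|x| ^ t` algebraic is in `Powers t` -/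
theorem mem_powers {t : ℝ} {x : ℚ} (hx : x ≠ 0) (h : IsAlgebraic ℚ (|(x : ℝ)| ^ t)) :
    (x : ℂ) ∈ Powers (t : ℂ) := by
  have hpos : (0 : ℝ) < |(x : ℝ)| := abs_pos.2 (by exact_mod_cast hx)
  have hexp : Complex.exp ((Real.log |(x : ℝ)| : ℝ) : ℂ) = ((|(x : ℝ)| : ℝ) : ℂ) := by
    rw [← Complex.ofReal_exp, Real.exp_log hpos]
  refine ⟨((Real.log |(x : ℝ)| : ℝ) : ℂ), ?_, ?_, ?_⟩
  · rw [hexp]
    rcases abs_choice (x : ℝ) with h | h
    · left
      rw [h]
      push_cast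
      rfl
    · right
      rw [h]
      push_cast
      rfl
  · rw [hexp]
    have : ((|(x : ℝ)| : ℝ) : ℂ) = algebraMap ℚ ℂ |x| := by
      rw [eq_ratCast, ← Rat.cast_abs, Complex.ofReal_ratCast]
    rw [this]
    exact isAlgebraic_algebraMap _
  · have h5 : Complex.exp ((t : ℂ) * ((Real.log |(x : ℝ)| : ℝ) : ℂ)) =
        ((|(x : ℝ)| ^ t : ℝ) : ℂ) := by
      rw [Real.rpow_def_of_pos hpos, Complex.ofReal_exp, Complex.ofReal_mul, mul_comm]
    rw [h5]
    exact h.algebraMap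

/-- the recurrences of rational numbers -/
theorem recurrence {C : ℕ} {t : ℝ}
    (plain : ∀ c d : ℂ, c ≠ 0 → d ≠ 0 → ∀ a b : ℂ, a ≠ 0 → b ≠ 0 →
      (∀ n : ℕ, n ≠ 0 → a ^ n ≠ b ^ n) → AtMost (Terms a b c d (Powers t)) C)
    {α β : ℂ} {u : ℕ → ℚ} (hα : α ≠ 0) (hβ : β ≠ 0) (hne : ∀ n : ℕ, n ≠ 0 → α ^ n ≠ β ^ n)
    (hu : ∀ n, (u (n + 2) : ℂ) = (α + β) * (u (n + 1) : ℂ) - α * β * (u n : ℂ))
    (h0 : (u 1 : ℂ) ≠ α * (u 0 : ℂ)) (h1 : (u 1 : ℂ) ≠ β * (u 0 : ℂ)) :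
    AtMost {n : ℕ | u n ≠ 0 ∧ IsAlgebraic ℚ (|(u n : ℝ)| ^ t)} C := by
  have hαβ : α ≠ β := fun h => hne 1 one_ne_zero (by rw [h])
  have hc : ((u 1 : ℂ) - β * (u 0 : ℂ)) / (α - β) ≠ 0 :=
    div_ne_zero (sub_ne_zero.2 h1) (sub_ne_zero.2 hαβ)
  have hd : (α * (u 0 : ℂ) - (u 1 : ℂ)) / (α - β) ≠ 0 :=
    div_ne_zero (sub_ne_zero.2 h0.symm) (sub_ne_zero.2 hαβ)
  obtain ⟨hf, hcard⟩ := plain _ _ hc hd α β hα hβ hne
  have hcl := closed_form (u := fun n => (u n : ℂ)) hαβ hu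
  beta_reduce at hcl
  generalize ((u 1 : ℂ) - β * (u 0 : ℂ)) / (α - β) = c at hcl hf hcard
  generalize (α * (u 0 : ℂ) - (u 1 : ℂ)) / (α - β) = d at hcl hf hcard
  have hmaps : ∀ n ∈ {n : ℕ | u n ≠ 0 ∧ IsAlgebraic ℚ (|(u n : ℝ)| ^ t)},
      (n : ℤ) ∈ Terms α β c d (Powers (t : ℂ)) := by
    rintro n ⟨hn0, hn⟩
    have e1 : c * α ^ (n : ℤ) + d * β ^ (n : ℤ) = (u n : ℂ) := by
      rw [zpow_natCast, zpow_natCast]
      exact (hcl n).symm
    have e2 := mem_powers hn0 hn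
    rw [← e1] at e2
    exact e2
  have hinj : Set.InjOn (fun n : ℕ => (n : ℤ))
      {n : ℕ | u n ≠ 0 ∧ IsAlgebraic ℚ (|(u n : ℝ)| ^ t)} :=
    Function.Injective.injOn Nat.cast_injective
  exact ⟨Set.Finite.of_injOn (f := fun n : ℕ => (n : ℤ)) hmaps hinj hf,
    (Set.ncard_le_ncard_of_injOn (fun n : ℕ => (n : ℤ)) hmaps hinj hf).trans hcard⟩

open Pool.Agent.U945.BR in
/-- **The four exponentials conjecture for the terms of binary recurrences.** -/
theorem result : ∃ C : ℕ,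
    (∀ t : ℝ, Irrational t → ∀ (α β : ℂ) (u : ℕ → ℚ), α ≠ 0 → β ≠ 0 →
      (∀ n : ℕ, n ≠ 0 → α ^ n ≠ β ^ n) →
      (∀ n, (u (n + 2) : ℂ) = (α + β) * (u (n + 1) : ℂ) - α * β * (u n : ℂ)) →
      (u 1 : ℂ) ≠ α * (u 0 : ℂ) → (u 1 : ℂ) ≠ β * (u 0 : ℂ) →
      AtMost {n : ℕ | u n ≠ 0 ∧ IsAlgebraic ℚ (|(u n : ℝ)| ^ t)} C) ∧
    (∀ t : ℂ, (∀ q : ℚ, t ≠ q) → ∀ c d : ℂ, c ≠ 0 → d ≠ 0 →
      (∀ a b : ℂ, a ≠ 0 → b ≠ 0 → (∀ n : ℕ, n ≠ 0 → a ^ n ≠ b ^ n) →
        AtMost (Terms a b c d (Powers t)) C) ∧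
      (∀ a b : ℂ, a ≠ 0 → b ≠ 0 → (∀ n m : ℤ, a ^ n = b ^ m → n = 0 ∧ m = 0) →
        AtMost (Pairs a b c d (Powers t)) C) ∧
      (∀ (r : ℕ) (h : Fin r → ℂ), (∀ j, h j ≠ 0) →
        AtMost (Quotients h c d (Powers t)) (C ^ (r + 1)))) ∧
    (∀ (k : ℕ) (t : ℂ), Transcendental ℚ t → ∀ V : Submodule (algebraicClosure ℚ ℂ) ℂ,
      FiniteDimensional (algebraicClosure ℚ ℂ) V → Module.finrank (algebraicClosure ℚ ℂ) V ≤ k →
      ∀ c d : ℂ, c ≠ 0 → d ≠ 0 →
      (∀ a b : ℂ, a ≠ 0 → b ≠ 0 → (∀ n : ℕ, n ≠ 0 → a ^ n ≠ b ^ n) →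
        AtMost (Terms a b c d (StrongPowers t V)) (C ^ (k + 1))) ∧
      (∀ a b : ℂ, a ≠ 0 → b ≠ 0 → (∀ n m : ℤ, a ^ n = b ^ m → n = 0 ∧ m = 0) →
        AtMost (Pairs a b c d (StrongPowers t V)) (C ^ (k + 1))) ∧
      (∀ (r : ℕ) (h : Fin r → ℂ), (∀ j, h j ≠ 0) →
        AtMost (Quotients h c d (StrongPowers t V)) (C ^ (k + r + 1)))) := by
  obtain ⟨C, hC1, hC⟩ := three
  have hpow : ∀ i j : ℕ, i ≤ j → C ^ i ≤ C ^ j := fun i j h => Nat.pow_le_pow_right hC1 h
  -- the sets `X` of rank at most `k + 2`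
  have main : ∀ (k : ℕ) (X : Set ℂ), (∃ g : Fin (k + 2) → ℂ, (∀ j, g j ≠ 0) ∧
      ∀ x ∈ X, x ≠ 0 ∧ Pool.Agent.N175.BG.InDiv g x) → ∀ c d : ℂ, c ≠ 0 → d ≠ 0 →
      (∀ a b : ℂ, a ≠ 0 → b ≠ 0 → (∀ n : ℕ, n ≠ 0 → a ^ n ≠ b ^ n) →
        AtMost (Terms a b c d X) ((C ^ 5) ^ (k + 1))) ∧
      (∀ a b : ℂ, a ≠ 0 → b ≠ 0 → (∀ n m : ℤ, a ^ n = b ^ m → n = 0 ∧ m = 0) →
        AtMost (Pairs a b c d X) ((C ^ 5) ^ (k + 1))) ∧
      (∀ (r : ℕ) (h : Fin r → ℂ), (∀ j, h j ≠ 0) →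
        AtMost (Quotients h c d X) ((C ^ 5) ^ (k + r + 1))) := by
    intro k X hX c d hc hd
    obtain ⟨h1, h2, h3⟩ := hC (k + 2) X hX c d hc hd
    refine ⟨fun a b ha hb hne => ?_, fun a b ha hb hne => ?_, fun r h hh => ?_⟩
    · refine Pool.Agent.U945.AL.bounded_set (fun E hE => (h2 a b ha hb hne E hE).trans ?_)
      rw [← pow_mul]
      exact hpow _ _ (by omega)
    · refine Pool.Agent.U945.AL.bounded_set (fun E hE => (h3 a b ha hb hne E hE).trans ?_)
      rw [← pow_mul]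
      exact hpow _ _ (by omega)
    · refine Pool.Agent.U945.AL.bounded_set (fun E hE => (h1 r h hh E hE).trans ?_)
      rw [← pow_mul]
      exact hpow _ _ (by omega)
  have plain : ∀ t : ℂ, (∀ q : ℚ, t ≠ q) → ∀ c d : ℂ, c ≠ 0 → d ≠ 0 →
      (∀ a b : ℂ, a ≠ 0 → b ≠ 0 → (∀ n : ℕ, n ≠ 0 → a ^ n ≠ b ^ n) →
        AtMost (Terms a b c d (Powers t)) (C ^ 5)) ∧
      (∀ a b : ℂ, a ≠ 0 → b ≠ 0 → (∀ n m : ℤ, a ^ n = b ^ m → n = 0 ∧ m = 0) →
        AtMost (Pairs a b c d (Powers t)) (C ^ 5)) ∧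
      (∀ (r : ℕ) (h : Fin r → ℂ), (∀ j, h j ≠ 0) →
        AtMost (Quotients h c d (Powers t)) ((C ^ 5) ^ (r + 1))) := by
    intro t ht c d hc hd
    have := main 0 (Powers t) (alg_gens ht) c d hc hd
    simpa only [zero_add, pow_one] using this
  refine ⟨C ^ 5, ?_, plain, fun k t ht V hV hk c d hc hd =>
    main k (StrongPowers t V) (gam_gens' ht V hk) c d hc hd⟩
  intro t ht α β u hα hβ hne hu h0 h1
  refine recurrence (fun c d hc hd => (plain (t : ℂ) ?_ c d hc hd).1) hα hβ hne hu h0 h1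
  intro q hq
  apply ht
  refine ⟨q, ?_⟩
  have : ((q : ℝ) : ℂ) = (t : ℂ) := by
    rw [hq]
    push_cast
    rfl
  exact_mod_cast this

end Pool.Agent.Results.MP_bbc1fa_nt.BinaryRecurrences
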