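import Mathlib
import Pool.Agent.U945.RV.Low

/-!
# The four exponentials conjecture for the values of a rational function

The four exponentials conjecture for rational numbers says: if `t` is an irrational real number, then
the positive rational numbers `x` such that `x ^ t` is rational have multiplicative rank at most one.
By the six exponentials theorem the rank is at most two, also with algebraic `x ^ t`.  So for each
irrational `t` there can be infinitely many counterexamples, in a group of rank two.  We ask which of
them are values `|r(q)|` of a given rational function `r = P / Q` at rational numbers `q`.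

1. Let `r` have at least three different zeros and poles on the projective line (over `ℂ`; for
   instance `r = X ^ 2 + 1`, or `r = X - 1 / X`, or any polynomial with at least two different complex
   roots).  Then for each irrational `t` there are only finitely many rational numbers `q` such that
   `|r(q)| ^ t` is algebraic.  More generally, for each complex number `t` which is not rational, and
   each finite dimensional `ℚ`-subspace `V` of `ℂ`, there are only finitely many rational numbers `q`
   such that `|r(q)| ^ t` is the product of an algebraic number and of `exp v` with `v` in `V`; and for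
   each transcendental `t` and each finite dimensional space `V` over the algebraic numbers, there are
   only finitely many `q` such that `t log |r(q)|` is the sum of an element of `V` and of a linear
   combination with algebraic coefficients of `1` and of logarithms of algebraic numbers.

   So a first row of a counterexample to the conjecture, for a given ratio `t` of the rows, contains
   one of the numbers `log |r(q)|` for finitely many `q` only.

2. This is sharp: if `r` has at most two zeros and poles (so that `r` is a constant, or a constant
   times a power of a Möbius transformation), then there is a transcendental real number `t` such that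
   `|r(q)| ^ t` is a rational number for infinitely many rational numbers `q`.
-/

set_option autoImplicit false

namespace Pool.Agent.Results.MP_bbc1fa_nt.RationalFunctionValues

open Polynomial

/-- The number of different zeros and poles of the rational function `P / Q` on the projective line
over `ℂ`, for nonzero coprime polynomials `P` and `Q`: the number of the complex roots of `P Q`, without
multiplicity, plus one if the degrees are different (the point at infinity). -/
noncomputable def points (P Q : ℚ[X]) : ℕ :=
  ((P * Q).map (algebraMap ℚ ℂ)).roots.toFinset.card + if P.natDegree = Q.natDegree then 0 else 1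

/-- The absolute value of the rational function `P / Q` at the rational number `q`. -/
noncomputable def value (P Q : ℚ[X]) (q : ℚ) : ℝ := |((P.eval q / Q.eval q : ℚ) : ℝ)|

/-- The linear combinations, with algebraic coefficients, of `1` and of logarithms of algebraic
numbers. -/
noncomputable def LogForms : Submodule (algebraicClosure ℚ ℂ) ℂ :=
  Submodule.span (algebraicClosure ℚ ℂ) ({1} ∪ {z : ℂ | IsAlgebraic ℚ (Complex.exp z)})

open Pool.Agent.U945.RV Pool.Agent.H301R2.SSE in
theorem finite_of_br {P Q : ℚ[X]} (hP : P ≠ 0) (hQ : Q ≠ 0) (hPQ : IsCoprime P Q)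
    (h3 : 3 ≤ points P Q) {Γ : Set ℚ} (hΓ : BR Γ) :
    {q : ℚ | P.eval q ≠ 0 ∧ Q.eval q ≠ 0 ∧ |P.eval q / Q.eval q| ∈ Γ}.Finite := by
  refine (finite_rat hP hQ hPQ h3 (primes_finite hΓ).toFinset).subset ?_
  rintro q ⟨h1, h2, h⟩
  refine ⟨h1, h2, fun p hp hv => ?_⟩
  rw [Set.Finite.mem_toFinset]
  refine ⟨hp, _, h, ?_⟩
  rcases abs_choice (P.eval q / Q.eval q) with h4 | h4
  · rw [h4]
    exact hv
  · rw [h4, padicValRat.neg]
    exact hv

open Pool.Agent.U945.RV Pool.Agent.H301R2.SSE in
/-- **The four exponentials conjecture for the values of a rational function.** -/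
theorem result (P Q : ℚ[X]) (hP : P ≠ 0) (hQ : Q ≠ 0) (hPQ : IsCoprime P Q) :
    (3 ≤ points P Q →
      (∀ t : ℂ, (∀ q : ℚ, t ≠ q) → ∀ V : Submodule ℚ ℂ, FiniteDimensional ℚ V →
        {q : ℚ | P.eval q ≠ 0 ∧ Q.eval q ≠ 0 ∧
          ∃ v ∈ V, IsAlgebraic ℚ (Complex.exp (t * (Real.log (value P Q q) : ℂ) - v))}.Finite) ∧
      (∀ t : ℂ, Transcendental ℚ t → ∀ V : Submodule (algebraicClosure ℚ ℂ) ℂ,
        FiniteDimensional (algebraicClosure ℚ ℂ) V →
        {q : ℚ | P.eval q ≠ 0 ∧ Q.eval q ≠ 0 ∧
          ∃ v ∈ V, t * (Real.log (value P Q q) : ℂ) - v ∈ LogForms}.Finite)) ∧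
    (points P Q < 3 → ∃ t : ℝ, Transcendental ℚ t ∧
      {q : ℚ | P.eval q ≠ 0 ∧ Q.eval q ≠ 0 ∧ ∃ y : ℚ, (value P Q q) ^ t = y}.Infinite) := by
  have hv : ∀ q : ℚ, ((Real.log (value P Q q) : ℝ) : ℂ) =
      Pool.Agent.U945.AP.lg |P.eval q / Q.eval q| := by
    intro q
    unfold value Pool.Agent.U945.AP.lg
    rw [Rat.cast_abs]
  refine ⟨fun h3 => ⟨fun t ht V hV => ?_, fun t ht V hV => ?_⟩, fun h3 => ?_⟩
  · refine (finite_of_br hP hQ hPQ h3 (br_irr ht V)).subset ?_
    rintro q ⟨h1, h2, v, hvV, hv'⟩
    refine ⟨h1, h2, abs_pos.2 (div_ne_zero h1 h2), ?_⟩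
    rw [hv] at hv'
    have := Submodule.add_mem_sup (mem_Lg.2 hv') hvV
    rwa [sub_add_cancel] at this
  · refine (finite_of_br hP hQ hPQ h3 (br_trans ht V)).subset ?_
    rintro q ⟨h1, h2, v, hvV, hv'⟩
    refine ⟨h1, h2, abs_pos.2 (div_ne_zero h1 h2), ?_⟩
    rw [hv] at hv'
    have h4 : t * Pool.Agent.U945.AP.lg |P.eval q / Q.eval q| - v ∈ Lt := hv'
    have := Submodule.add_mem_sup h4 hvV
    rwa [sub_add_cancel] at this
  · exact low hP hQ hPQ h3

end Pool.Agent.Results.MP_bbc1fa_nt.RationalFunctionValues
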