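import Pool.Agent.U979.RG.Cplx

set_option autoImplicit false

/-!
# Rigidity of the counterexamples to the four exponentials conjecture

Let `M` be a counterexample: a `2 × 2` matrix of logarithms of positive rational numbers (or, more
generally, of algebraic numbers) with `ℚ`-linearly independent rows, `ℚ`-linearly independent columns
and determinant zero.  The quotient `ρ = M_12 / M_11` (`= M_22 / M_21`) is its slope; it is
transcendental.  Obviously `A M B` is a counterexample, too, for all invertible rational matrices `A`,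
`B`, and its slope is `(p + q ρ) / (r + s ρ)` with rational `p, q, r, s`, `p s ≠ q r`.

We prove that these are the only counterexamples whose slope is a Möbius transform of `ρ` with
ALGEBRAIC coefficients.

1. Let `M` and `N` be counterexamples with slopes `ρ`, `ρ'`, and suppose that `1, ρ, ρ', ρ ρ'` are
   linearly dependent over the field of the algebraic numbers.  Then `N = A M B` with invertible
   rational matrices `A`, `B`; and the relation between `1, ρ, ρ', ρ ρ'` is proportional to a relation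
   with rational coefficients.
2. The same for rational numbers (the case of the problem).  So two counterexamples are equivalent,
   and the groups generated by their entries are commensurable, or `1, ρ, ρ', ρ ρ'` are linearly
   independent over the algebraic numbers.
3. Let `β` be a real algebraic irrational number and `t` any real number.  Then `t` and `t + β` are not
   both slopes of counterexamples, and neither are `t` and `β t`: if `x ^ t`, `y ^ t` are rational for
   some multiplicatively independent positive rational `x`, `y` and `t` is irrational, then for all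
   multiplicatively independent positive rational `x'`, `y'` one of the numbers `x' ^ (t + β)`,
   `y' ^ (t + β)` is irrational, and one of `x' ^ (β t)`, `y' ^ (β t)`.

Proof.  Let `L` be the space of the linear forms in `1` and logarithms of algebraic numbers with algebraic
coefficients.  By the strong six exponentials theorem of D. Roy (library) the elements `y` of `L`
for which `ρ y` is in `L` are the combinations of `x = M_11` and `x' = M_21`.  If
`a + b ρ + c ρ' + d ρ ρ' = 0` and `u = N_i1`, `v = N_i2 = ρ' u`, then `ρ (d v + b u) = - (c v + a u)`, so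
`d v + b u` is such an element `y`.  This gives `N = A M B` with algebraic matrices `A`, `B`
(`RG.formS`).  By Baker's theorem the entries of `N` are rational combinations of the entries of `M`.
If these are linearly independent then all products `A_ik B_lj` are rational, and `A`, `B` are rational
up to a common factor.  Otherwise rational row operations make `M` symmetric, the entries of `N`
become products of two linear polynomials in `ρ` with rational coefficients, and the claim follows
from an identity for such products (`RG.split_rat`).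
-/

namespace Pool.Agent.Results.MP_bbc1fa_nt.RigidityOfCounterexamples

/-- The matrix of the logarithms of the entries of `a`. -/
noncomputable def logMatrix (a : Matrix (Fin 2) (Fin 2) ℚ) : Matrix (Fin 2) (Fin 2) ℝ :=
  Matrix.of fun i j => Real.log (a i j)

/-- `a` is a counterexample to the four exponentials conjecture for rational numbers. -/
def IsCounterexample (a : Matrix (Fin 2) (Fin 2) ℚ) : Prop :=
  (∀ i j, 0 < a i j) ∧ LinearIndependent ℚ (logMatrix a).row ∧
    LinearIndependent ℚ (logMatrix a).col ∧ (logMatrix a).det = 0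

/-- The slope of a counterexample. -/
noncomputable def slope (a : Matrix (Fin 2) (Fin 2) ℚ) : ℝ :=
  Real.log (a 0 1) / Real.log (a 0 0)

/-- `M` is a counterexample to the four exponentials conjecture for algebraic numbers. -/
def IsCounterexampleC (M : Matrix (Fin 2) (Fin 2) ℂ) : Prop :=
  (∀ i j, IsAlgebraic ℚ (Complex.exp (M i j))) ∧ LinearIndependent ℚ M.row ∧
    LinearIndependent ℚ M.col ∧ M.det = 0

open Pool.Agent.U979.RG

theorem rowsOf {K : Type*} [Field K] [CharZero K] {M : Matrix (Fin 2) (Fin 2) K}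
    (h : LinearIndependent ℚ M.row) (a b : ℚ) (hab : ∀ j, (a : K) * M 0 j + b * M 1 j = 0) :
    a = 0 ∧ b = 0 := by
  have h1 := Fintype.linearIndependent_iff.mp h ![a, b] (by
    rw [Fin.sum_univ_two]
    funext j
    simp only [Matrix.cons_val_zero, Matrix.cons_val_one, Pi.add_apply, Pi.smul_apply,
      Matrix.row_apply, Pi.zero_apply, Rat.smul_def]
    exact hab j)
  exact ⟨h1 0, h1 1⟩

theorem ctr_of {K : Type*} [Field K] [CharZero K] {Λ : Submodule ℚ K}
    {M : Matrix (Fin 2) (Fin 2) K} (hm : ∀ i j, M i j ∈ Λ) (hr : LinearIndependent ℚ M.row)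
    (hc : LinearIndependent ℚ M.col) (hd : M.det = 0) : Ctr Λ M where
  mem := hm
  rows a b hab := rowsOf hr a b hab
  cols a b hab := rowsOf (M := M.transpose) hc a b hab
  det := by
    rw [Matrix.det_fin_two] at hd
    linear_combination hd

theorem complex_case (M N : Matrix (Fin 2) (Fin 2) ℂ) (hM : IsCounterexampleC M)
    (hN : IsCounterexampleC N) (α β γ δ : ℂ) (hα : IsAlgebraic ℚ α) (hβ : IsAlgebraic ℚ β)
    (hγ : IsAlgebraic ℚ γ) (hδ : IsAlgebraic ℚ δ) (hne : ¬ (α = 0 ∧ β = 0 ∧ γ = 0 ∧ δ = 0))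
    (h : α + β * (M 0 1 / M 0 0) + γ * (N 0 1 / N 0 0) +
      δ * (M 0 1 / M 0 0) * (N 0 1 / N 0 0) = 0) :
    (∃ A B : Matrix (Fin 2) (Fin 2) ℚ, A.det ≠ 0 ∧ B.det ≠ 0 ∧
      N = A.map (fun q => (q : ℂ)) * M * B.map fun q => (q : ℂ)) ∧
    ∃ κ : ℂ, κ ≠ 0 ∧ ∃ p q r s : ℚ, κ * α = p ∧ κ * β = q ∧ κ * γ = r ∧ κ * δ = s := by
  haveI : IsAlgClosed (algebraicClosure ℚ ℂ) := (algebraicClosure.isAlgClosure ℚ ℂ).isAlgClosed
  obtain ⟨h1, κ, hκ, ⟨p, hp⟩, ⟨q, hq⟩, ⟨r, hr⟩, s, hs⟩ := rigid sys_complex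
    (ctr_of (Λ := logA) hM.1 hM.2.1 hM.2.2.1 hM.2.2.2)
    (ctr_of (Λ := logA) hN.1 hN.2.1 hN.2.2.1 hN.2.2.2) (mem_Cs_complex.mpr hα)
    (mem_Cs_complex.mpr hβ) (mem_Cs_complex.mpr hγ) (mem_Cs_complex.mpr hδ) hne h
  exact ⟨h1, κ, hκ, p, q, r, s, hp.symm, hq.symm, hr.symm, hs.symm⟩

/-- the embedding of the real numbers, linear over the rational numbers -/
noncomputable def φ : ℝ →ₗ[ℚ] ℂ := Complex.ofRealAm.toLinearMap.restrictScalars ℚ

theorem indep_map (v : Fin 2 → Fin 2 → ℝ) (h : LinearIndependent ℚ v) :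
    LinearIndependent ℚ fun i : Fin 2 => fun j : Fin 2 => ((v i j : ℝ) : ℂ) := by
  rw [Fintype.linearIndependent_iff] at h ⊢
  intro g hg i
  refine h g ?_ i
  funext j
  have h1 := congrFun hg j
  simp only [Finset.sum_apply, Pi.smul_apply, Pi.zero_apply, Rat.smul_def] at h1 ⊢
  exact_mod_cast h1

theorem toComplex {a : Matrix (Fin 2) (Fin 2) ℚ} (ha : IsCounterexample a) :
    IsCounterexampleC ((logMatrix a).map fun x => (x : ℂ)) := by
  refine ⟨fun i j => ?_, indep_map _ ha.2.1, indep_map _ ha.2.2.1, ?_⟩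
  · have h0 : (0 : ℝ) < (a i j : ℝ) := by exact_mod_cast ha.1 i j
    show IsAlgebraic ℚ (Complex.exp ((Real.log (a i j) : ℝ) : ℂ))
    rw [← Complex.ofReal_exp, Real.exp_log h0, Complex.ofReal_ratCast]
    exact isAlgebraic_algebraMap (R := ℚ) (A := ℂ) (a i j)
  · have h1 := ha.2.2.2
    rw [Matrix.det_fin_two] at h1 ⊢
    simp only [Matrix.map_apply]
    exact_mod_cast h1

theorem rational_case (a b : Matrix (Fin 2) (Fin 2) ℚ) (ha : IsCounterexample a)
    (hb : IsCounterexample b) (α β γ δ : ℂ) (hα : IsAlgebraic ℚ α) (hβ : IsAlgebraic ℚ β)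
    (hγ : IsAlgebraic ℚ γ) (hδ : IsAlgebraic ℚ δ) (hne : ¬ (α = 0 ∧ β = 0 ∧ γ = 0 ∧ δ = 0))
    (h : α + β * slope a + γ * slope b + δ * slope a * slope b = 0) :
    (∃ A B : Matrix (Fin 2) (Fin 2) ℚ, A.det ≠ 0 ∧ B.det ≠ 0 ∧
      logMatrix b = A.map (fun q => (q : ℝ)) * logMatrix a * B.map fun q => (q : ℝ)) ∧
    ∃ κ : ℂ, κ ≠ 0 ∧ ∃ p q r s : ℚ, κ * α = p ∧ κ * β = q ∧ κ * γ = r ∧ κ * δ = s := by
  have hsl : ∀ a : Matrix (Fin 2) (Fin 2) ℚ, ((logMatrix a).map fun x => (x : ℂ)) 0 1 /
      ((logMatrix a).map fun x => (x : ℂ)) 0 0 = (slope a : ℂ) := by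
    intro a
    simp [logMatrix, slope]
  obtain ⟨⟨A, B, hA, hB, hAB⟩, h2⟩ := complex_case _ _ (toComplex ha) (toComplex hb) α β γ δ hα hβ
    hγ hδ hne (by rw [hsl, hsl]; exact h)
  refine ⟨⟨A, B, hA, hB, ?_⟩, h2⟩
  ext i j
  have h3 := congrFun (congrFun hAB i) j
  simp only [Matrix.mul_apply, Fin.sum_univ_two, Matrix.map_apply] at h3 ⊢
  exact_mod_cast h3

/-- **Main result.** -/
theorem result :
    (∀ M N : Matrix (Fin 2) (Fin 2) ℂ, IsCounterexampleC M → IsCounterexampleC N →
      ∀ α β γ δ : ℂ, IsAlgebraic ℚ α → IsAlgebraic ℚ β → IsAlgebraic ℚ γ → IsAlgebraic ℚ δ →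
        ¬ (α = 0 ∧ β = 0 ∧ γ = 0 ∧ δ = 0) →
        α + β * (M 0 1 / M 0 0) + γ * (N 0 1 / N 0 0) +
          δ * (M 0 1 / M 0 0) * (N 0 1 / N 0 0) = 0 →
        (∃ A B : Matrix (Fin 2) (Fin 2) ℚ, A.det ≠ 0 ∧ B.det ≠ 0 ∧
          N = A.map (fun q => (q : ℂ)) * M * B.map fun q => (q : ℂ)) ∧
        ∃ κ : ℂ, κ ≠ 0 ∧ ∃ p q r s : ℚ, κ * α = p ∧ κ * β = q ∧ κ * γ = r ∧ κ * δ = s) ∧
    (∀ a b : Matrix (Fin 2) (Fin 2) ℚ, IsCounterexample a → IsCounterexample b →
      ∀ α β γ δ : ℂ, IsAlgebraic ℚ α → IsAlgebraic ℚ β → IsAlgebraic ℚ γ → IsAlgebraic ℚ δ →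
        ¬ (α = 0 ∧ β = 0 ∧ γ = 0 ∧ δ = 0) →
        α + β * slope a + γ * slope b + δ * slope a * slope b = 0 →
        (∃ A B : Matrix (Fin 2) (Fin 2) ℚ, A.det ≠ 0 ∧ B.det ≠ 0 ∧
          logMatrix b = A.map (fun q => (q : ℝ)) * logMatrix a * B.map fun q => (q : ℝ)) ∧
        ∃ κ : ℂ, κ ≠ 0 ∧ ∃ p q r s : ℚ, κ * α = p ∧ κ * β = q ∧ κ * γ = r ∧ κ * δ = s) ∧
    (∀ a b : Matrix (Fin 2) (Fin 2) ℚ, IsCounterexample a → IsCounterexample b →
      ∀ β : ℝ, IsAlgebraic ℚ β → Irrational β →
        slope b ≠ slope a + β ∧ slope b ≠ β * slope a) := by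
  refine ⟨complex_case, rational_case, ?_⟩
  intro a b ha hb β hβ hirr
  have hβC : IsAlgebraic ℚ (β : ℂ) := hβ.algebraMap
  have hrat : ∀ κ : ℂ, κ ≠ 0 → ∀ p q : ℚ, κ * (β : ℂ) = p → κ = q → False := by
    intro κ hκ p q h1 h2
    have hq : q ≠ 0 := by
      rintro rfl
      rw [Rat.cast_zero] at h2
      exact hκ h2
    apply hirr
    refine ⟨p / q, ?_⟩
    have h3 : (q : ℂ) * (β : ℂ) = p := by rw [← h2]; exact h1
    have h4 : (q : ℝ) * β = p := by exact_mod_cast h3
    have hq' : (q : ℝ) ≠ 0 := by exact_mod_cast hq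
    push_cast
    rw [div_eq_iff hq', ← h4, mul_comm]
  constructor
  · intro h
    obtain ⟨-, κ, hκ, p, q, r, s, h1, h2, h3, -⟩ := rational_case a b ha hb (β : ℂ) 1 (-1) 0 hβC
      isAlgebraic_one isAlgebraic_one.neg isAlgebraic_zero (fun h => one_ne_zero h.2.1) (by
        rw [h]
        push_cast
        ring)
    exact hrat κ hκ p q h1 (by rw [mul_one] at h2; exact h2)
  · intro h
    obtain ⟨-, κ, hκ, p, q, r, s, -, h2, h3, -⟩ := rational_case a b ha hb 0 (β : ℂ) (-1) 0
      isAlgebraic_zero hβC isAlgebraic_one.neg isAlgebraic_zero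
      (fun h => (neg_ne_zero.mpr one_ne_zero) h.2.2.1) (by
        rw [h]
        push_cast
        ring)
    refine hrat κ hκ q (-r) h2 ?_
    push_cast
    linear_combination -h3

end Pool.Agent.Results.MP_bbc1fa_nt.RigidityOfCounterexamples
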